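import Pool.Agent.W323.PT.Stm

/-! # Finite minimax -/

set_option autoImplicit false

namespace Pool.Agent.W641.PT

theorem minimax : Pool.Agent.W323.PT.S_Minimax := by
  intro N J _ A δ hN h
  classical
  -- a pure strategy exists
  obtain ⟨j0, hj0⟩ : ∃ j : J, True := by
    obtain ⟨j, _⟩ := h (fun _ => 1 / (N : ℝ)) (fun _ => by positivity) (by
      rw [Finset.sum_const, Finset.card_univ, Fintype.card_fin, nsmul_eq_mul]
      have : (N : ℝ) ≠ 0 := by exact_mod_cast hN.ne'
      field_simp)
    exact ⟨j, trivial⟩
  let Λ : (J → ℝ) →ₗ[ℝ] (Fin N → ℝ) :=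
    { toFun := fun w t => ∑ j, w j * A t j
      map_add' := by
        intro z z'; funext i
        simp only [Pi.add_apply, add_mul, Finset.sum_add_distrib]
      map_smul' := by
        intro t z; funext i
        simp only [Pi.smul_apply, smul_eq_mul, RingHom.id_apply, Finset.mul_sum, mul_assoc] }
  have hΛ : ∀ w t, Λ w t = ∑ j, w j * A t j := fun w t => rfl
  have hΛc : Continuous Λ := LinearMap.continuous_of_finiteDimensional Λ
  let Q : Set (J → ℝ) := stdSimplex ℝ J
  have hQc : IsCompact Q := isCompact_stdSimplex ℝ J
  have hQv : Convex ℝ Q := convex_stdSimplex ℝ J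
  let P : Set (Fin N → ℝ) := {y | ∀ i, y i ≤ δ}
  have hPv : Convex ℝ P := by
    intro y hy y' hy' a b ha hb hab i
    have h1 := hy i
    have h2 := hy' i
    simp only [Pi.add_apply, Pi.smul_apply, smul_eq_mul]
    calc a * y i + b * y' i ≤ a * δ + b * δ := add_le_add (mul_le_mul_of_nonneg_left h1 ha)
          (mul_le_mul_of_nonneg_left h2 hb)
      _ = δ := by rw [← add_mul, hab, one_mul]
  have hPc : IsClosed P := by
    have : P = ⋂ i, {y : Fin N → ℝ | y i ≤ δ} := by ext y; simp [P]
    rw [this]
    exact isClosed_iInter fun i => isClosed_le (continuous_apply i) continuous_const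
  by_cases hd : Disjoint (Λ '' Q) P
  · exfalso
    obtain ⟨f, u, v, hf1, huv, hf2⟩ := geometric_hahn_banach_compact_closed
      (hQv.linear_image Λ) (hQc.image hΛc) hPv hPc hd
    let a : Fin N → ℝ := fun i => f (Pi.single i 1)
    have hf : ∀ y : Fin N → ℝ, f y = ∑ i, y i * a i := by
      intro y
      have h1 : y = ∑ i, y i • (Pi.single i (1 : ℝ) : Fin N → ℝ) := by
        funext j
        simp only [Finset.sum_apply, Pi.smul_apply, smul_eq_mul]
        rw [Finset.sum_eq_single j]
        · simp
        · intro b _ hb
          rw [Pi.single_eq_of_ne hb.symm, mul_zero]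
        · intro hj; exact absurd (Finset.mem_univ j) hj
      conv_lhs => rw [h1]
      rw [map_sum]
      apply Finset.sum_congr rfl
      intro i _
      rw [map_smul, smul_eq_mul]
    have hsingle : ∀ j : J, ∑ t, A t j * a t < u := by
      intro j
      have h2 : (Pi.single j 1 : J → ℝ) ∈ Q := single_mem_stdSimplex ℝ j
      have h3 := hf1 _ ⟨_, h2, rfl⟩
      rw [hf] at h3
      have h4 : ∀ t, Λ (Pi.single j 1 : J → ℝ) t = A t j := by
        intro t
        rw [hΛ, Finset.sum_eq_single j]
        · rw [Pi.single_eq_same, one_mul]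
        · intro b _ hb
          rw [Pi.single_eq_of_ne hb, zero_mul]
        · intro hj; exact absurd (Finset.mem_univ j) hj
      simp only [h4] at h3
      exact h3
    have ha : ∀ i, a i ≤ 0 := by
      intro i
      by_contra hpos
      push Not at hpos
      -- move far in the negative direction
      let c : ℝ := (|v| + |δ * ∑ t, a t| + 1) / a i
      have hc : 0 ≤ c := by positivity
      let y : Fin N → ℝ := fun t => δ - (Pi.single i c : Fin N → ℝ) t
      have hy : y ∈ P := by
        intro t
        show δ - (Pi.single i c : Fin N → ℝ) t ≤ δ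
        by_cases ht : t = i
        · subst ht; rw [Pi.single_eq_same]; linarith
        · rw [Pi.single_eq_of_ne ht]; linarith
      have h5 := hf2 y hy
      rw [hf] at h5
      have h6 : ∑ t, y t * a t = δ * ∑ t, a t - c * a i := by
        have h7 : ∀ t, y t * a t = δ * a t - (Pi.single i c : Fin N → ℝ) t * a t := by
          intro t
          show (δ - (Pi.single i c : Fin N → ℝ) t) * a t = _
          ring
        rw [Finset.sum_congr rfl fun t _ => h7 t, Finset.sum_sub_distrib, ← Finset.mul_sum]
        congr 1
        rw [Finset.sum_eq_single i]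
        · rw [Pi.single_eq_same]
        · intro b _ hb
          rw [Pi.single_eq_of_ne hb, zero_mul]
        · intro hj; exact absurd (Finset.mem_univ i) hj
      have h8 : c * a i = |v| + |δ * ∑ t, a t| + 1 := by
        show (|v| + |δ * ∑ t, a t| + 1) / a i * a i = _
        field_simp
      rw [h6, h8] at h5
      have h9 := neg_abs_le v
      have h10 := le_abs_self (δ * ∑ t, a t)
      linarith
    have hconst : v < δ * ∑ t, a t := by
      have h5 := hf2 (fun _ => δ) (fun _ => le_refl δ)
      rw [hf, ← Finset.mul_sum] at h5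
      exact h5
    let s : ℝ := ∑ t, (- a t)
    have hs0 : 0 ≤ s := Finset.sum_nonneg fun t _ => by linarith [ha t]
    have hs : 0 < s := by
      rcases hs0.lt_or_eq with h1 | h1
      · exact h1
      · exfalso
        have h2 : ∀ t ∈ Finset.univ, - a t = 0 :=
          (Finset.sum_eq_zero_iff_of_nonneg fun t _ => by linarith [ha t]).mp h1.symm
        have h3 : ∀ t, a t = 0 := fun t => by linarith [h2 t (Finset.mem_univ t)]
        have h4 := hsingle j0
        have h5 : ∑ t, A t j0 * a t = 0 := Finset.sum_eq_zero fun t _ => by rw [h3 t, mul_zero]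
        have h6 : δ * ∑ t, a t = 0 := by
          rw [Finset.sum_eq_zero fun t _ => h3 t, mul_zero]
        rw [h5] at h4
        rw [h6] at hconst
        linarith
    have hsa : ∑ t, a t = - s := by
      show ∑ t, a t = - ∑ t, (- a t)
      rw [Finset.sum_neg_distrib, neg_neg]
    obtain ⟨j, hj⟩ := h (fun t => - a t / s)
      (fun t => div_nonneg (by linarith [ha t]) hs0)
      (by rw [← Finset.sum_div]; exact div_self hs.ne')
    have h11 : ∑ t, - a t / s * A t j = - (∑ t, A t j * a t) / s := by
      rw [← Finset.sum_neg_distrib, Finset.sum_div]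
      refine Finset.sum_congr rfl fun t _ => ?_
      ring
    rw [h11, div_lt_iff₀ hs] at hj
    have h12 := hsingle j
    rw [hsa] at hconst
    nlinarith
  · rw [Set.not_disjoint_iff] at hd
    obtain ⟨y, ⟨w, hw, rfl⟩, hy⟩ := hd
    exact ⟨w, hw.1, hw.2, fun t => hy t⟩

end Pool.Agent.W641.PT
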